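import Pool.Agent.H65.PK.Targets

/-!
# Board pker_modules, row CST: powers of algebraic numbers, all degree goes into the height
-/

set_option autoImplicit false

open Polynomial Module

namespace Pool.Agent.H89.PKER

open Pool.Agent.H65.PK
open Pool.Agent.H18.TD (Rep)

/-- linear integer polynomials -/
theorem rep_lin {N : ℕ} (ω : Fin N → ℂ) (c : Fin N → ℤ) (L : ℝ)
    (h : ∑ j, |(c j : ℝ)| ≤ L) : Rep ω 1 L (∑ j, (c j : ℂ) * ω j) := by
  classical
  refine ⟨∑ j, MvPolynomial.monomial (Finsupp.single j 1) (c j), ?_, ?_, ?_⟩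
  · refine MvPolynomial.totalDegree_finsetSum_le fun j _ => ?_
    refine (MvPolynomial.totalDegree_monomial_le _ _).trans ?_
    simp
  · refine le_trans ?_ h
    set Φ : MvPolynomial (Fin N) ℤ :=
      ∑ j, MvPolynomial.monomial (Finsupp.single j 1) (c j) with hΦ
    have hc : ∀ j, MvPolynomial.coeff (Finsupp.single j 1) Φ = c j := by
      intro j
      rw [hΦ, MvPolynomial.coeff_sum, Finset.sum_eq_single j]
      · rw [MvPolynomial.coeff_monomial, if_pos rfl]
      · intro k _ hk
        rw [MvPolynomial.coeff_monomial, if_neg]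
        intro h0
        exact hk (Finsupp.single_left_injective one_ne_zero h0)
      · intro h0
        exact absurd (Finset.mem_univ j) h0
    have hs : Φ.support ⊆ Finset.univ.image (fun j : Fin N => Finsupp.single j 1) := by
      intro m hm
      by_contra hno
      rw [MvPolynomial.mem_support_iff] at hm
      refine hm ?_
      rw [hΦ, MvPolynomial.coeff_sum]
      refine Finset.sum_eq_zero fun j _ => ?_
      rw [MvPolynomial.coeff_monomial, if_neg]
      intro h0
      exact hno (Finset.mem_image.2 ⟨j, Finset.mem_univ j, h0⟩)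
    calc ∑ m ∈ Φ.support, |((MvPolynomial.coeff m Φ : ℤ) : ℝ)|
        ≤ ∑ m ∈ Finset.univ.image (fun j : Fin N => Finsupp.single j 1),
            |((MvPolynomial.coeff m Φ : ℤ) : ℝ)| :=
          Finset.sum_le_sum_of_subset_of_nonneg hs fun _ _ _ => abs_nonneg _
      _ = ∑ j, |((MvPolynomial.coeff (Finsupp.single j 1) Φ : ℤ) : ℝ)| :=
          Finset.sum_image fun a _ b _ hab => Finsupp.single_left_injective one_ne_zero hab
      _ = ∑ j, |(c j : ℝ)| := Finset.sum_congr rfl fun j _ => by rw [hc j]
  · rw [map_sum]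
    refine Finset.sum_congr rfl fun j _ => ?_
    rw [MvPolynomial.aeval_monomial, Finsupp.prod_single_index (by exact pow_zero _)]
    simp

/-- a common denominator -/
theorem denom {m : ℕ} (y : Fin m → ℂ) (hy : ∀ i, IsAlgebraic ℚ (y i)) :
    ∃ D : ℕ, 1 ≤ D ∧ ∀ i, IsIntegral ℤ ((D : ℂ) * y i) := by
  classical
  have h1 : ∀ i, ∃ d : ℕ, 1 ≤ d ∧ IsIntegral ℤ ((d : ℂ) * y i) := by
    intro i
    have h2 : IsAlgebraic ℤ (y i) := (IsFractionRing.isAlgebraic_iff ℤ ℚ ℂ).2 (hy i)
    obtain ⟨z, hz0, hz⟩ := h2.exists_integral_multiple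
    refine ⟨z.natAbs, Nat.one_le_iff_ne_zero.2 (Int.natAbs_ne_zero.2 hz0), ?_⟩
    rw [zsmul_eq_mul] at hz
    rcases Int.natAbs_eq z with h | h
    · rw [h] at hz
      simpa using hz
    · rw [h] at hz
      have h3 := hz.neg
      simpa using h3
  choose d hd1 hd using h1
  refine ⟨∏ i, d i, Finset.one_le_prod' fun i _ => hd1 i, fun i => ?_⟩
  rw [← Finset.mul_prod_erase Finset.univ d (Finset.mem_univ i), Nat.cast_mul,
    mul_comm ((d i : ℕ) : ℂ), mul_assoc]
  refine IsIntegral.mul ?_ (hd i)
  have := isIntegral_algebraMap (R := ℤ) (A := ℂ)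
    (x := ((∏ x ∈ Finset.univ.erase i, d x : ℕ) : ℤ))
  simpa using this

/-- the ring generated by finitely many integral elements has a finite spanning family -/
theorem span_fam {m : ℕ} (u : Fin m → ℂ) (hu : ∀ i, IsIntegral ℤ (u i)) :
    ∃ (N : ℕ) (ω : Fin N → ℂ) (j0 : Fin N) (c : Fin m → Fin N → Fin N → ℤ),
      (∀ i, IsAlgebraic ℚ (ω i)) ∧ ω j0 = 1 ∧
      ∀ i j, u i * ω j = ∑ k, (c i j k : ℂ) * ω k := by
  classical
  set S := Algebra.adjoin ℤ (Set.range u) with hS
  have hfg : (Subalgebra.toSubmodule S).FG :=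
    fg_adjoin_of_finite (Set.finite_range u) (by
      rintro _ ⟨i, rfl⟩
      exact hu i)
  obtain ⟨T, hT⟩ := hfg
  set T' : Finset ℂ := insert 1 T with hT'
  have hsub : ∀ x ∈ T', x ∈ S := by
    intro x hx
    rcases Finset.mem_insert.1 hx with h | h
    · rw [h]
      exact S.one_mem
    · have : x ∈ Submodule.span ℤ (T : Set ℂ) := Submodule.subset_span h
      rw [hT] at this
      exact this
  have hspan : ∀ x ∈ S, x ∈ Submodule.span ℤ (T' : Set ℂ) := by
    intro x hx
    have h1 : x ∈ Submodule.span ℤ (T : Set ℂ) := by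
      rw [hT]
      exact hx
    exact Submodule.span_mono (by
      rw [hT', Finset.coe_insert]
      exact Set.subset_insert _ _) h1
  set e := T'.equivFin with he
  have hint : ∀ x ∈ S, IsIntegral ℤ x := by
    intro x hx
    have h2 : Algebra.IsIntegral ℤ S := by
      rw [hS]
      exact Algebra.IsIntegral.adjoin (by
        rintro _ ⟨i, rfl⟩
        exact hu i)
    have h3 := h2.isIntegral (⟨x, hx⟩ : S)
    exact h3.map S.val
  have hr : Set.range (fun j : Fin T'.card => ((e.symm j : T') : ℂ)) = (T' : Set ℂ) := by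
    ext x
    constructor
    · rintro ⟨j, rfl⟩
      exact (e.symm j).2
    · intro hx
      exact ⟨e ⟨x, hx⟩, by simp⟩
  have hex : ∀ (i : Fin m) (j : Fin T'.card), ∃ c : Fin T'.card → ℤ,
      u i * ((e.symm j : T') : ℂ) = ∑ k, (c k : ℂ) * ((e.symm k : T') : ℂ) := by
    intro i j
    have h1 : u i * ((e.symm j : T') : ℂ) ∈ S :=
      S.mul_mem (Algebra.subset_adjoin ⟨i, rfl⟩) (hsub _ (e.symm j).2)
    have h2 := hspan _ h1
    rw [← hr, Submodule.mem_span_range_iff_exists_fun] at h2
    obtain ⟨c, hc⟩ := h2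
    refine ⟨c, ?_⟩
    rw [← hc]
    refine Finset.sum_congr rfl fun k _ => ?_
    rw [zsmul_eq_mul]
  choose c hc using hex
  refine ⟨T'.card, fun j => ((e.symm j : T') : ℂ), e ⟨1, Finset.mem_insert_self _ _⟩, c,
    fun i => ?_, by simp, hc⟩
  exact (IsFractionRing.isAlgebraic_iff ℤ ℚ ℂ).1 (hint _ (hsub _ (e.symm i).2)).isAlgebraic

theorem pf_CST : T_CST := by
  classical
  intro m y hy
  obtain ⟨D, hD, hint⟩ := denom y hy
  obtain ⟨N, ω, j0, c, halg, hone, hc⟩ := span_fam (fun i => (D : ℂ) * y i) hint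
  set E : ℝ := D + ∑ i, ∑ j, ∑ k, |(c i j k : ℝ)| with hE
  have hsum0 : 0 ≤ ∑ i, ∑ j, ∑ k, |(c i j k : ℝ)| :=
    Finset.sum_nonneg fun i _ => Finset.sum_nonneg fun j _ => Finset.sum_nonneg fun k _ =>
      abs_nonneg _
  have hD1 : (1 : ℝ) ≤ D := by exact_mod_cast hD
  have hDE : (D : ℝ) ≤ E := by rw [hE]; linarith
  have hE1 : 1 ≤ E := hD1.trans hDE
  have hrow : ∀ i j, ∑ k, |(c i j k : ℝ)| ≤ E := by
    intro i j
    have h1 : ∑ k, |(c i j k : ℝ)| ≤ ∑ j, ∑ k, |(c i j k : ℝ)| :=
      Finset.single_le_sum (f := fun j => ∑ k, |(c i j k : ℝ)|)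
        (fun j _ => Finset.sum_nonneg fun k _ => abs_nonneg _) (Finset.mem_univ j)
    have h2 : ∑ j, ∑ k, |(c i j k : ℝ)| ≤ ∑ i, ∑ j, ∑ k, |(c i j k : ℝ)| :=
      Finset.single_le_sum (f := fun i => ∑ j, ∑ k, |(c i j k : ℝ)|)
        (fun i _ => Finset.sum_nonneg fun j _ => Finset.sum_nonneg fun k _ => abs_nonneg _)
        (Finset.mem_univ i)
    rw [hE]
    linarith
  refine ⟨N, ω, D, E, halg, hD, hE1, ?_⟩
  have key : ∀ (δ : ℕ) (e : Fin m → ℕ), ∑ i, e i ≤ δ → ∃ a : Fin N → ℤ,
      ∑ j, |(a j : ℝ)| ≤ E ^ δ ∧ (D : ℂ) ^ δ * ∏ i, y i ^ e i = ∑ j, (a j : ℂ) * ω j := by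
    intro δ
    induction δ with
    | zero =>
      intro e he
      have h0 : ∀ i, e i = 0 := fun i => by
        have := Finset.single_le_sum (f := e) (fun i _ => Nat.zero_le _) (Finset.mem_univ i)
        omega
      refine ⟨fun j => if j = j0 then 1 else 0, ?_, ?_⟩
      · rw [pow_zero, Finset.sum_eq_single j0]
        · simp
        · intro b _ hb
          simp [hb]
        · intro h
          exact absurd (Finset.mem_univ _) h
      · rw [Finset.sum_eq_single j0]
        · simp [h0, hone]
        · intro b _ hb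
          simp [hb]
        · intro h
          exact absurd (Finset.mem_univ _) h
    | succ δ ih =>
      intro e he
      rcases Nat.lt_or_ge δ (∑ i, e i) with hlt | hle
      · have hex : ∃ i, e i ≠ 0 := by
          by_contra hno
          rw [Finset.sum_eq_zero fun i _ => not_not.1 fun h => hno ⟨i, h⟩] at hlt
          omega
        obtain ⟨i, hi⟩ := hex
        have hsplit : ∑ k, e k = e i + ∑ k ∈ Finset.univ.erase i, e k :=
          (Finset.add_sum_erase Finset.univ e (Finset.mem_univ i)).symm
        set e' : Fin m → ℕ := Function.update e i (e i - 1) with he'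
        have hsplit' : ∑ k, e' k = (e i - 1) + ∑ k ∈ Finset.univ.erase i, e k := by
          rw [← Finset.add_sum_erase Finset.univ e' (Finset.mem_univ i), he',
            Function.update_self]
          refine congrArg _ (Finset.sum_congr rfl fun k hk => ?_)
          rw [Function.update_of_ne (Finset.ne_of_mem_erase hk)]
        obtain ⟨a, ha, hval⟩ := ih e' (by omega)
        have hprod : ∏ k, y k ^ e k = y i * ∏ k, y k ^ e' k := by
          rw [← Finset.mul_prod_erase Finset.univ (fun k => y k ^ e k) (Finset.mem_univ i),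
            ← Finset.mul_prod_erase Finset.univ (fun k => y k ^ e' k) (Finset.mem_univ i),
            ← mul_assoc]
          refine congrArg₂ _ ?_ (Finset.prod_congr rfl fun k hk => ?_)
          · rw [he', Function.update_self, ← pow_succ', Nat.sub_add_cancel
              (Nat.one_le_iff_ne_zero.2 hi)]
          · rw [he', Function.update_of_ne (Finset.ne_of_mem_erase hk)]
        refine ⟨fun k => ∑ j, a j * c i j k, ?_, ?_⟩
        · calc ∑ k, |((∑ j, a j * c i j k : ℤ) : ℝ)|
              ≤ ∑ k, ∑ j, |(a j : ℝ)| * |(c i j k : ℝ)| := by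
                refine Finset.sum_le_sum fun k _ => ?_
                rw [Int.cast_sum]
                refine (Finset.abs_sum_le_sum_abs _ _).trans (le_of_eq ?_)
                refine Finset.sum_congr rfl fun j _ => ?_
                rw [Int.cast_mul, abs_mul]
            _ = ∑ j, |(a j : ℝ)| * ∑ k, |(c i j k : ℝ)| := by
                rw [Finset.sum_comm]
                refine Finset.sum_congr rfl fun j _ => ?_
                rw [Finset.mul_sum]
            _ ≤ ∑ j, |(a j : ℝ)| * E :=
                Finset.sum_le_sum fun j _ => mul_le_mul_of_nonneg_left (hrow i j) (abs_nonneg _)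
            _ = (∑ j, |(a j : ℝ)|) * E := by rw [Finset.sum_mul]
            _ ≤ E ^ δ * E := mul_le_mul_of_nonneg_right ha (by linarith)
            _ = E ^ (δ + 1) := (pow_succ _ _).symm
        · calc (D : ℂ) ^ (δ + 1) * ∏ k, y k ^ e k
              = ((D : ℂ) * y i) * ((D : ℂ) ^ δ * ∏ k, y k ^ e' k) := by
                rw [hprod]
                ring
            _ = ∑ j, (a j : ℂ) * (((D : ℂ) * y i) * ω j) := by
                rw [hval, Finset.mul_sum]
                exact Finset.sum_congr rfl fun j _ => by ring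
            _ = ∑ j, ∑ k, ((a j : ℂ) * (c i j k : ℂ)) * ω k := by
                refine Finset.sum_congr rfl fun j _ => ?_
                rw [hc i j, Finset.mul_sum]
                exact Finset.sum_congr rfl fun k _ => by ring
            _ = ∑ k, ((∑ j, a j * c i j k : ℤ) : ℂ) * ω k := by
                rw [Finset.sum_comm]
                refine Finset.sum_congr rfl fun k _ => ?_
                rw [Int.cast_sum, Finset.sum_mul]
                exact Finset.sum_congr rfl fun j _ => by rw [Int.cast_mul]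
      · obtain ⟨a, ha, hval⟩ := ih e hle
        refine ⟨fun j => D * a j, ?_, ?_⟩
        · calc ∑ j, |(((D : ℤ) * a j : ℤ) : ℝ)| = D * ∑ j, |(a j : ℝ)| := by
                rw [Finset.mul_sum]
                refine Finset.sum_congr rfl fun j _ => ?_
                rw [Int.cast_mul, abs_mul, Int.cast_natCast, Nat.abs_cast]
            _ ≤ E * E ^ δ := mul_le_mul hDE ha
                (Finset.sum_nonneg fun j _ => abs_nonneg _) (by linarith)
            _ = E ^ (δ + 1) := (pow_succ' _ _).symm
        · rw [pow_succ', mul_assoc, hval, Finset.mul_sum]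
          refine Finset.sum_congr rfl fun j _ => ?_
          rw [Int.cast_mul, Int.cast_natCast, mul_assoc]
  intro δ e he
  obtain ⟨a, ha, hval⟩ := key δ e he
  rw [hval]
  exact rep_lin ω a _ ha

end Pool.Agent.H89.PKER
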